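import Mathlib
import Pool.Agent.W718.HeisEmbeds

namespace Pool.Agent.Results.MP_2c2cb6_an.HeisenbergEmbeds

open Pool.Agent.W718

/-- Q1. There is a subshift of dimension `34` (so `d ≥ 2`) into whose automorphism group
the discrete Heisenberg group embeds. -/
theorem result :
    ∃ (d k : ℕ) (X : Shift.Subshift d k), d = 34 ∧ 2 ≤ d ∧
      Shift.EmbedsInAut Heis.Heisenberg X :=
  ⟨34, _, Shift.PS 34 41, rfl, by norm_num, Shift.Phi 34 41, Shift.Phi_injective⟩

end Pool.Agent.Results.MP_2c2cb6_an.HeisenbergEmbeds
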